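import Pool.Agent.Y517.NT.Sys

/-!
# Project NT: from smooth to continuous multipliers
-/

set_option autoImplicit false

open Set Filter Topology MeasureTheory
open scoped ContDiff NNReal

namespace Pool.Agent.Y500.NT

open Pool.Agent.Y517.NT

/-- the algebra of the smooth functions -/
def alg {X K : Type} [TopologicalSpace X] [TopologicalSpace K] (s : Sys X K) :
    Subalgebra ℝ C(X, ℝ) where
  carrier := {f | (f : X → ℝ) ∈ s.S}
  mul_mem' := by
    intro f g hf hg
    exact s.comp (fun q => q.1 * q.2) (contDiff_fst.mul contDiff_snd) f hf g hg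
  one_mem' := s.const 1
  add_mem' := by
    intro f g hf hg
    exact s.comp (fun q => q.1 + q.2) (contDiff_fst.add contDiff_snd) f hf g hg
  zero_mem' := s.const 0
  algebraMap_mem' := fun r => s.const r

theorem alg_sep {X K : Type} [TopologicalSpace X] [TopologicalSpace K] (s : Sys X K) :
    (alg s).SeparatesPoints := by
  intro x y hxy
  obtain ⟨f, hf, hne⟩ := s.sep x y hxy
  exact ⟨f, ⟨⟨f, s.S_cont f hf⟩, hf, rfl⟩, hne⟩

theorem ext1 {X K : Type} [TopologicalSpace X] [TopologicalSpace K] [CompactSpace X]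
    [CompactSpace K] [MeasurableSpace K] [BorelSpace K] (s : Sys X K) (μ : Measure K)
    [IsFiniteMeasure μ] (θ : K → ℝ) (hθ : Integrable θ μ)
    (h : ∀ χ ∈ s.S, ∫ z, χ (s.p z) * θ z ∂μ = 0) (b : X → ℝ) (hb : Continuous b) :
    ∫ z, b (s.p z) * θ z ∂μ = 0 := by
  have hint : ∀ c : X → ℝ, Continuous c → Integrable (fun z => c (s.p z) * θ z) μ := by
    intro c hc
    have hcp : Continuous fun z => c (s.p z) := hc.comp s.p_cont
    obtain ⟨M, hM⟩ := isCompact_univ.exists_bound_of_continuousOn hcp.continuousOn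
    exact hθ.bdd_mul hcp.aestronglyMeasurable (c := M)
      (Eventually.of_forall fun z => hM z (mem_univ z))
  have hI : 0 ≤ ∫ z, |θ z| ∂μ := integral_nonneg fun _ => abs_nonneg _
  have key : ∀ ε : ℝ, 0 < ε → |∫ z, b (s.p z) * θ z ∂μ| ≤ ε * ∫ z, |θ z| ∂μ := by
    intro ε hε
    obtain ⟨g, hg⟩ := ContinuousMap.exists_mem_subalgebra_near_continuous_of_separatesPoints
      (alg s) (alg_sep s) b hb ε hε
    have hgS : ((g : C(X, ℝ)) : X → ℝ) ∈ s.S := g.2
    have h1 := h _ hgS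
    have h2 : ∫ z, b (s.p z) * θ z ∂μ =
        ∫ z, (b (s.p z) * θ z - (g : C(X, ℝ)) (s.p z) * θ z) ∂μ := by
      rw [integral_sub (hint b hb) (hint _ (g : C(X, ℝ)).continuous), h1, sub_zero]
    rw [h2, ← Real.norm_eq_abs, ← integral_const_mul]
    refine norm_integral_le_of_norm_le (hθ.abs.const_mul ε) (Eventually.of_forall fun z => ?_)
    rw [← sub_mul, norm_mul, Real.norm_eq_abs (θ z)]
    refine mul_le_mul_of_nonneg_right ?_ (abs_nonneg _)
    rw [norm_sub_rev]
    exact (hg (s.p z)).le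
  by_contra hne
  have hpos : 0 < |∫ z, b (s.p z) * θ z ∂μ| := abs_pos.2 hne
  obtain ⟨I, hId⟩ : ∃ I, I = ∫ z, |θ z| ∂μ := ⟨_, rfl⟩
  obtain ⟨B, hBd⟩ : ∃ B, B = |∫ z, b (s.p z) * θ z ∂μ| := ⟨_, rfl⟩
  rw [← hId] at hI key
  rw [← hBd] at hpos key
  have h3 := key (B / (2 * (I + 1))) (by positivity)
  have h4 : B / (2 * (I + 1)) * I < B := by
    rw [div_mul_eq_mul_div, div_lt_iff₀ (by positivity)]
    nlinarith
  linarith

theorem t_EXT : S_EXT := by
  intro X K _ _ _ _ _ _ _ _ s μ _ θ hθ h b hb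
  refine ⟨ext1 s μ θ hθ h b hb, fun C hC => ?_⟩
  have hmeas : MeasurableSet (s.p ⁻¹' C) := (hC.preimage s.p_cont).measurableSet
  rw [← integral_indicator hmeas]
  have hbp : Continuous fun z => b (s.p z) := hb.comp s.p_cont
  obtain ⟨M, hM⟩ := isCompact_univ.exists_bound_of_continuousOn hbp.continuousOn
  have hcc : ∀ n, Continuous fun x => ((hC.apprSeq n x : ℝ≥0) : ℝ) := fun n =>
    NNReal.continuous_coe.comp (hC.apprSeq n).continuous
  have hlim : Tendsto (fun n => ∫ z, ((hC.apprSeq n (s.p z) : ℝ≥0) : ℝ) * b (s.p z) * θ z ∂μ)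
      atTop (𝓝 (∫ z, (s.p ⁻¹' C).indicator (fun z => b (s.p z) * θ z) z ∂μ)) := by
    refine tendsto_integral_of_dominated_convergence (fun z => M * |θ z|) (fun n => ?_)
      (hθ.abs.const_mul M) (fun n => Eventually.of_forall fun z => ?_)
      (Eventually.of_forall fun z => ?_)
    · exact ((((hcc n).comp s.p_cont).mul hbp).aestronglyMeasurable).mul hθ.aestronglyMeasurable
    · rw [norm_mul, norm_mul, Real.norm_eq_abs (θ z)]
      refine mul_le_mul_of_nonneg_right ?_ (abs_nonneg _)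
      have h1 : ‖((hC.apprSeq n (s.p z) : ℝ≥0) : ℝ)‖ ≤ 1 := by
        rw [Real.norm_eq_abs, NNReal.abs_eq]
        exact_mod_cast HasOuterApproxClosed.apprSeq_apply_le_one hC n (s.p z)
      calc _ ≤ 1 * M := mul_le_mul h1 (hM z (mem_univ z)) (norm_nonneg _) zero_le_one
        _ = M := one_mul M
    · have h2 := tendsto_pi_nhds.1 (HasOuterApproxClosed.tendsto_apprSeq hC) (s.p z)
      have h3 : Tendsto (fun n => ((hC.apprSeq n (s.p z) : ℝ≥0) : ℝ)) atTop
          (𝓝 ((C.indicator (fun _ => (1 : ℝ≥0)) (s.p z) : ℝ≥0) : ℝ)) :=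
        (NNReal.continuous_coe.tendsto _).comp h2
      have h4 := (h3.mul_const (b (s.p z))).mul_const (θ z)
      refine h4.congr' (Eventually.of_forall fun _ => rfl) |>.trans (le_of_eq ?_)
      congr 1
      by_cases hz : s.p z ∈ C
      · rw [indicator_of_mem hz, indicator_of_mem (show z ∈ s.p ⁻¹' C from hz)]
        simp
      · rw [indicator_of_notMem hz, indicator_of_notMem (show z ∉ s.p ⁻¹' C from hz)]
        simp
  have hzero : ∀ n, ∫ z, ((hC.apprSeq n (s.p z) : ℝ≥0) : ℝ) * b (s.p z) * θ z ∂μ = 0 := fun n =>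
    ext1 s μ θ hθ h (fun x => ((hC.apprSeq n x : ℝ≥0) : ℝ) * b x) ((hcc n).mul hb)
  simp only [hzero] at hlim
  exact (tendsto_nhds_unique hlim tendsto_const_nhds)

end Pool.Agent.Y500.NT
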